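import Mathlib
import Pool.Agent.Helper38.TM.Defs

/-!
# TM, A5: all triples `(D, x, y)`

`D = D₀ m²`, `D₀` squarefree, `m ≥ 1`, `y = m y'`, `y'² = D₀ f(x)`: `x ∈ XSet f (X / m²)`, `x`
determines `D₀`, and `y'` up to the sign. So the number of the triples is at most
`∑_{m² ≤ X} 2 card XSet f (X / m²)`, summed as in `Helper38/TW/CountAll.lean`.
-/

set_option autoImplicit false

namespace Pool.Agent.Helper75.TM

open Finset Polynomial Pool.Agent.Helper38.TM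

/-- `x` determines the squarefree twist -/
private theorem twist_unique {f : ℤ[X]} {D D' x y y' : ℤ} (hD : Squarefree D)
    (hD' : Squarefree D') (hy : y ≠ 0) (h : y ^ 2 = D * f.eval x)
    (h' : y' ^ 2 = D' * f.eval x) : D = D' := by
  have hD0 : D ≠ 0 := hD.ne_zero
  have hf0 : f.eval x ≠ 0 := by
    intro h0
    rw [h0, mul_zero] at h
    exact hy (pow_eq_zero_iff two_ne_zero |>.mp h)
  -- `D D' = w²`
  have h1 : (f.eval x) ^ 2 ∣ (y * y') ^ 2 := by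
    refine ⟨D * D', ?_⟩
    rw [mul_pow, h, h']
    ring
  obtain ⟨w, hw⟩ := (Int.pow_dvd_pow_iff two_ne_zero).1 h1
  have h2 : D * D' = w ^ 2 := by
    have h3 : (f.eval x) ^ 2 * (D * D') = (f.eval x) ^ 2 * w ^ 2 := by
      rw [← mul_pow, ← hw, mul_pow, h, h']
      ring
    exact mul_left_cancel₀ (pow_ne_zero 2 hf0) h3
  have h3 : D ∣ w := (hD.dvd_pow_iff_dvd two_ne_zero).mp ⟨D', h2.symm⟩
  obtain ⟨v, rfl⟩ := h3
  have h4 : D' = D * v ^ 2 := by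
    apply mul_left_cancel₀ hD0
    rw [h2]
    ring
  have h5 : IsUnit v := hD' v ⟨D, by rw [h4]; ring⟩
  rcases Int.isUnit_iff.1 h5 with h6 | h6 <;> rw [h4, h6] <;> ring

/-- the decomposition `D = D₀ m²` -/
private theorem decomp (f : ℤ[X]) (X : ℕ) (D x y : ℤ) (hD : D ≠ 0) (hX : |D| ≤ (X : ℤ))
    (hy : y ≠ 0) (h : y ^ 2 = D * f.eval x) :
    ∃ (m : ℕ) (D₀ y' : ℤ), 1 ≤ m ∧ m ≤ X ∧ m ^ 2 ≤ X ∧ Squarefree D₀ ∧
      |D₀| ≤ ((X / m ^ 2 : ℕ) : ℤ) ∧ y' ≠ 0 ∧ y' ^ 2 = D₀ * f.eval x ∧ D = D₀ * (m : ℤ) ^ 2 ∧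
      y = m * y' := by
  obtain ⟨a, b, hab, hsq⟩ := Nat.sq_mul_squarefree D.natAbs
  have hDn : D.natAbs ≠ 0 := Int.natAbs_ne_zero.2 hD
  have hb : b ≠ 0 := by
    rintro rfl
    apply hDn
    rw [← hab]
    simp
  have ha : a ≠ 0 := by
    rintro rfl
    apply hDn
    rw [← hab]
    simp
  have hDX : D.natAbs ≤ X := by
    have h1 : ((D.natAbs : ℕ) : ℤ) ≤ X := by
      rw [Int.natCast_natAbs]
      exact hX
    exact_mod_cast h1
  have hbX : b ^ 2 ≤ X := by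
    calc b ^ 2 = b ^ 2 * 1 := (mul_one _).symm
      _ ≤ b ^ 2 * a := Nat.mul_le_mul_left _ (Nat.one_le_iff_ne_zero.2 ha)
      _ = D.natAbs := hab
      _ ≤ X := hDX
  have hb1 : 1 ≤ b := Nat.one_le_iff_ne_zero.2 hb
  have hsa : (D.sign * a).natAbs = a := by
    rw [Int.natAbs_mul, Int.natAbs_sign_of_ne_zero hD, one_mul, Int.natAbs_natCast]
  have hDe : D = D.sign * a * (b : ℤ) ^ 2 := by
    conv_lhs => rw [← Int.sign_mul_natAbs D, ← hab]
    push_cast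
    ring
  have h2 : (b : ℤ) ^ 2 ∣ y ^ 2 := by
    rw [h]
    refine Dvd.dvd.mul_right ?_ _
    conv_rhs => rw [hDe]
    exact Dvd.intro_left _ rfl
  obtain ⟨y', hy'⟩ := (Int.pow_dvd_pow_iff two_ne_zero).1 h2
  refine ⟨b, D.sign * a, y', hb1, ?_, hbX, ?_, ?_, ?_, ?_, hDe, hy'⟩
  · calc b = b ^ 1 := (pow_one b).symm
      _ ≤ b ^ 2 := Nat.pow_le_pow_right hb1 (by norm_num)
      _ ≤ X := hbX
  · rw [← Int.squarefree_natAbs, hsa]
    exact hsq
  · rw [← Int.natCast_natAbs, hsa]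
    have h3 : a ≤ X / b ^ 2 := by
      rw [Nat.le_div_iff_mul_le (by positivity), mul_comm, hab]
      exact hDX
    exact_mod_cast h3
  · rintro rfl
    exact hy (by rw [hy', mul_zero])
  · have hb2 : (b : ℤ) ^ 2 ≠ 0 := pow_ne_zero 2 (by exact_mod_cast hb)
    apply mul_left_cancel₀ hb2
    rw [← mul_pow, ← hy', h]
    conv_lhs => rw [hDe]
    ring

/-- the set of the triples -/
private def TS (f : ℤ[X]) (X : ℕ) : Set (ℤ × ℤ × ℤ) :=
  {P : ℤ × ℤ × ℤ | P.1 ≠ 0 ∧ |P.1| ≤ X ∧ P.2.2 ≠ 0 ∧ P.2.2 ^ 2 = P.1 * f.eval P.2.1}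

private theorem ts_card (f : ℤ[X]) (hfin : ∀ X : ℕ, (XSet f X).Finite) (X : ℕ) :
    (TS f X).Finite ∧ (TS f X).ncard ≤
      ∑ m ∈ (Finset.Icc 1 X).filter (fun m => m ^ 2 ≤ X), 2 * (XSet f (X / m ^ 2)).ncard := by
  classical
  have hex : ∀ x : ℤ, ∃ p : ℤ × ℤ, (∃ D y : ℤ, Squarefree D ∧ y ≠ 0 ∧ y ^ 2 = D * f.eval x) →
      Squarefree p.1 ∧ p.2 ≠ 0 ∧ p.2 ^ 2 = p.1 * f.eval x := by
    intro x
    by_cases h : ∃ D y : ℤ, Squarefree D ∧ y ≠ 0 ∧ y ^ 2 = D * f.eval x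
    · obtain ⟨D, y, h1, h2, h3⟩ := h
      exact ⟨(D, y), fun _ => ⟨h1, h2, h3⟩⟩
    · exact ⟨0, fun h' => absurd h' h⟩
  choose p hp using hex
  obtain ⟨φ, hφ⟩ : ∃ φ : ℕ → ℤ → ℤ → ℤ × ℤ × ℤ, φ =
      fun (m : ℕ) (b x : ℤ) => ((p x).1 * (m : ℤ) ^ 2, x, b * ((m : ℤ) * (p x).2)) := ⟨_, rfl⟩
  have hsub : TS f X ⊆ ⋃ m ∈ (Finset.Icc 1 X).filter (fun m => m ^ 2 ≤ X),
      ((φ m 1 '' XSet f (X / m ^ 2)) ∪ (φ m (-1) '' XSet f (X / m ^ 2))) := by
    rintro ⟨D, x, y⟩ ⟨hD, hDX, hy, hxy⟩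
    obtain ⟨m, D₀, y', hm1, hmX, hm2, hs, hb, hy', hxy', hDe, hye⟩ := decomp f X D x y hD hDX hy hxy
    obtain ⟨q1, q2, q3⟩ := hp x ⟨D₀, y', hs, hy', hxy'⟩
    have hpD : (p x).1 = D₀ := twist_unique q1 hs q2 q3 hxy'
    have hpy : y' ^ 2 = (p x).2 ^ 2 := by rw [hxy', q3, hpD]
    have hx : x ∈ XSet f (X / m ^ 2) := ⟨D₀, y', hs, hb, hy', hxy'⟩
    rw [Set.mem_iUnion₂]
    refine ⟨m, Finset.mem_filter.2 ⟨Finset.mem_Icc.2 ⟨hm1, hmX⟩, hm2⟩, ?_⟩
    rcases sq_eq_sq_iff_eq_or_eq_neg.1 hpy with h1 | h1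
    · left
      refine ⟨x, hx, ?_⟩
      rw [hφ]
      dsimp only
      rw [hpD, ← hDe, ← h1, one_mul, ← hye]
    · right
      refine ⟨x, hx, ?_⟩
      rw [hφ]
      dsimp only
      have h2 : (-1 : ℤ) * ((m : ℤ) * (p x).2) = y := by
        rw [hye, h1]
        ring
      rw [hpD, ← hDe, h2]
  have hfin' : ∀ m : ℕ, ((φ m 1 '' XSet f (X / m ^ 2)) ∪
      (φ m (-1) '' XSet f (X / m ^ 2))).Finite := fun m =>
    ((hfin _).image _).union ((hfin _).image _)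
  have hU : (⋃ m ∈ (Finset.Icc 1 X).filter (fun m => m ^ 2 ≤ X),
      ((φ m 1 '' XSet f (X / m ^ 2)) ∪ (φ m (-1) '' XSet f (X / m ^ 2)))).Finite :=
    Set.Finite.biUnion (Finset.finite_toSet _) fun m _ => hfin' m
  refine ⟨hU.subset hsub, (Set.ncard_le_ncard hsub hU).trans
    ((Finset.set_ncard_biUnion_le _ _).trans (Finset.sum_le_sum fun m _ => ?_))⟩
  refine (Set.ncard_union_le _ _).trans ?_
  have h1 := Set.ncard_image_le (f := φ m 1) (hfin (X / m ^ 2))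
  have h2 := Set.ncard_image_le (f := φ m (-1)) (hfin (X / m ^ 2))
  omega

theorem count_all_x (f : ℤ[X]) (hfin : ∀ X : ℕ, (XSet f X).Finite)
    (H : ∃ C c : ℝ, 0 < C ∧ 0 < c ∧ ∀ X : ℕ, 2 ≤ X →
      ((XSet f X).ncard : ℝ) ≤ C * X / (Real.log X) ^ c) :
    ∃ C c : ℝ, 0 < C ∧ 0 < c ∧ ∀ X : ℕ, 2 ≤ X →
      {P : ℤ × ℤ × ℤ | P.1 ≠ 0 ∧ |P.1| ≤ X ∧ P.2.2 ≠ 0 ∧
        P.2.2 ^ 2 = P.1 * f.eval P.2.1}.Finite ∧
      (({P : ℤ × ℤ × ℤ | P.1 ≠ 0 ∧ |P.1| ≤ X ∧ P.2.2 ≠ 0 ∧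
        P.2.2 ^ 2 = P.1 * f.eval P.2.1}.ncard : ℕ) : ℝ) ≤ C * X / (Real.log X) ^ c := by
  obtain ⟨C, c, hC, hc, hcount⟩ := H
  -- the trivial bound
  have hlog2 : 0 < Real.log 2 := Real.log_pos (by norm_num)
  obtain ⟨C', hC'0, hC'⟩ : ∃ C' : ℝ, 0 < C' ∧ ∀ Y : ℕ, 1 ≤ Y → ((XSet f Y).ncard : ℝ) ≤ C' * Y := by
    have hl2 : 0 < Real.log 2 ^ c := Real.rpow_pos_of_pos hlog2 c
    refine ⟨C / Real.log 2 ^ c + (XSet f 1).ncard, by positivity, fun Y hY => ?_⟩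
    have hA : (0 : ℝ) ≤ (XSet f 1).ncard := Nat.cast_nonneg _
    rcases eq_or_lt_of_le hY with h1 | h1
    · rw [← h1]
      have : 0 < C / Real.log 2 ^ c := by positivity
      push_cast
      linarith
    · have h2 : 2 ≤ Y := h1
      have hY0 : (0 : ℝ) < Y := by exact_mod_cast hY
      have h3 : Real.log 2 ≤ Real.log Y :=
        Real.log_le_log (by norm_num) (by exact_mod_cast h2)
      have h4 : Real.log 2 ^ c ≤ Real.log Y ^ c := Real.rpow_le_rpow hlog2.le h3 hc.le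
      calc ((XSet f Y).ncard : ℝ) ≤ C * Y / Real.log Y ^ c := hcount Y h2
        _ ≤ C * Y / Real.log 2 ^ c := by gcongr
        _ = C / Real.log 2 ^ c * Y := by ring
        _ ≤ (C / Real.log 2 ^ c + (XSet f 1).ncard) * Y := by
            have : 0 ≤ ((XSet f 1).ncard : ℝ) * Y := by positivity
            linarith
  have hsum : Summable fun m : ℕ => 1 / (m : ℝ) ^ (3 / 2 : ℝ) :=
    Real.summable_one_div_nat_rpow.2 (by norm_num)
  obtain ⟨Z, hZ⟩ : ∃ Z : ℝ, Z = ∑' m : ℕ, 1 / (m : ℝ) ^ (3 / 2 : ℝ) := ⟨_, rfl⟩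
  have hZ1 : 0 ≤ Z := by
    rw [hZ]
    exact tsum_nonneg fun m => by positivity
  obtain ⟨K, hK⟩ : ∃ K : ℝ, K = C * 4 ^ c + C' * (8 * c) ^ c + C' * 3 ^ c := ⟨_, rfl⟩
  have hK0 : 0 < K := by
    rw [hK]
    positivity
  refine ⟨2 * (K * Z) + 1, c, by positivity, hc, fun X hX => ?_⟩
  obtain ⟨hTfin, hTcard⟩ := ts_card f hfin X
  refine ⟨hTfin, ?_⟩
  change (((TS f X).ncard : ℕ) : ℝ) ≤ _
  have hX0 : (0 : ℝ) < X := by
    have : 0 < X := by omega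
    exact_mod_cast this
  have hlog : 0 < Real.log X := Real.log_pos (by exact_mod_cast (show 1 < X by omega))
  have hlc : 0 < Real.log X ^ c := Real.rpow_pos_of_pos hlog c
  have hterm : ∀ m ∈ (Finset.Icc 1 X).filter (fun m => m ^ 2 ≤ X),
      ((XSet f (X / m ^ 2)).ncard : ℝ) ≤
        (K * X / Real.log X ^ c) * (1 / (m : ℝ) ^ (3 / 2 : ℝ)) := by
    intro m hm
    obtain ⟨hm1, hm2⟩ := Finset.mem_filter.1 hm
    have hm1' : 1 ≤ m := (Finset.mem_Icc.1 hm1).1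
    have hm0 : (0 : ℝ) < m := by exact_mod_cast hm1'
    have hm1r : (1 : ℝ) ≤ m := by exact_mod_cast hm1'
    have hY : ((X / m ^ 2 : ℕ) : ℝ) ≤ X / (m : ℝ) ^ 2 := by
      have := @Nat.cast_div_le ℝ _ _ _ X (m ^ 2)
      push_cast at this
      exact this
    have hpow : 1 / (m : ℝ) ^ 2 ≤ 1 / (m : ℝ) ^ (3 / 2 : ℝ) := by
      apply one_div_le_one_div_of_le (Real.rpow_pos_of_pos hm0 _)
      rw [← Real.rpow_natCast (m : ℝ) 2]
      exact Real.rpow_le_rpow_of_exponent_le hm1r (by norm_num)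
    have hY1 : 1 ≤ X / m ^ 2 := by
      rw [Nat.one_le_div_iff (by positivity)]
      exact hm2
    have htriv : ((XSet f (X / m ^ 2)).ncard : ℝ) ≤ C' * (X / (m : ℝ) ^ 2) :=
      (hC' _ hY1).trans (by gcongr)
    have hKa : 0 ≤ C * 4 ^ c := by positivity
    have hKb : 0 ≤ C' * (8 * c) ^ c := by positivity
    have hKc : 0 ≤ C' * 3 ^ c := by positivity
    by_cases hX16 : X < 16
    · -- small `X`
      have h5 : Real.log X ≤ 3 := by
        have h6 : Real.log X ≤ Real.log 16 := by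
          apply Real.log_le_log hX0
          exact_mod_cast hX16.le
        have h7 : Real.log 16 = 4 * Real.log 2 := by
          rw [show (16 : ℝ) = 2 ^ 4 by norm_num, Real.log_pow]
          norm_num
        have h8 := Real.log_two_lt_d9
        linarith
      have h6 : Real.log X ^ c ≤ 3 ^ c := Real.rpow_le_rpow hlog.le h5 hc.le
      have h7 : 1 ≤ 3 ^ c / Real.log X ^ c := by
        rw [le_div_iff₀ hlc, one_mul]
        exact h6
      calc ((XSet f (X / m ^ 2)).ncard : ℝ) ≤ C' * (X / (m : ℝ) ^ 2) := htriv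
        _ = (C' * X * 1) * (1 / (m : ℝ) ^ 2) := by ring
        _ ≤ (C' * X * (3 ^ c / Real.log X ^ c)) * (1 / (m : ℝ) ^ (3 / 2 : ℝ)) := by gcongr
        _ = (C' * 3 ^ c * X / Real.log X ^ c) * (1 / (m : ℝ) ^ (3 / 2 : ℝ)) := by ring
        _ ≤ (K * X / Real.log X ^ c) * (1 / (m : ℝ) ^ (3 / 2 : ℝ)) := by
            have h9 : C' * 3 ^ c ≤ K := by
              rw [hK]
              linarith
            gcongr
    have hX16' : 16 ≤ X := not_lt.1 hX16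
    by_cases h4 : m ^ 4 ≤ X
    · -- main range
      obtain ⟨t, ht⟩ : ∃ t : ℕ, t = Nat.sqrt X := ⟨_, rfl⟩
      have ht1 : t * t ≤ X := by rw [ht]; exact Nat.sqrt_le X
      have ht2 : X < (t + 1) * (t + 1) := by rw [ht]; exact Nat.lt_succ_sqrt X
      have ht4 : 4 ≤ t := by
        rw [ht, Nat.le_sqrt]
        omega
      have hmt : m ^ 2 ≤ t := by
        rw [ht, Nat.le_sqrt]
        calc m ^ 2 * m ^ 2 = m ^ 4 := by ring
          _ ≤ X := h4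
      have hYt : t ≤ X / m ^ 2 := by
        rw [Nat.le_div_iff_mul_le (by positivity)]
        exact (Nat.mul_le_mul_left t hmt).trans ht1
      have hXY : X ≤ (X / m ^ 2) ^ 4 := by
        have h5 : (t + 1) ≤ t * t := by nlinarith
        calc X ≤ (t + 1) * (t + 1) := ht2.le
          _ ≤ (t * t) * (t * t) := Nat.mul_le_mul h5 h5
          _ = t ^ 4 := by ring
          _ ≤ (X / m ^ 2) ^ 4 := Nat.pow_le_pow_left hYt 4
      have hY2 : 2 ≤ X / m ^ 2 := by omega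
      have hYlog : Real.log X / 4 ≤ Real.log (X / m ^ 2 : ℕ) := by
        have h5 : Real.log X ≤ Real.log (((X / m ^ 2 : ℕ) : ℝ) ^ 4) := by
          apply Real.log_le_log hX0
          exact_mod_cast hXY
        rw [Real.log_pow] at h5
        push_cast at h5 ⊢
        linarith
      have h5 := hcount (X / m ^ 2) hY2
      have h6 : (Real.log X / 4) ^ c ≤ Real.log (X / m ^ 2 : ℕ) ^ c :=
        Real.rpow_le_rpow (by positivity) hYlog hc.le
      have h7 : (Real.log X / 4) ^ c = Real.log X ^ c / 4 ^ c :=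
        Real.div_rpow hlog.le (by norm_num) c
      have h8 : 0 < (Real.log X / 4) ^ c := Real.rpow_pos_of_pos (by positivity) c
      calc ((XSet f (X / m ^ 2)).ncard : ℝ) ≤
            C * ((X / m ^ 2 : ℕ) : ℝ) / Real.log (X / m ^ 2 : ℕ) ^ c := h5
        _ ≤ C * (X / (m : ℝ) ^ 2) / (Real.log X / 4) ^ c := by
            gcongr
        _ = (C * 4 ^ c * X / Real.log X ^ c) * (1 / (m : ℝ) ^ 2) := by
            rw [h7]
            field_simp
        _ ≤ (K * X / Real.log X ^ c) * (1 / (m : ℝ) ^ (3 / 2 : ℝ)) := by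
            have h9 : C * 4 ^ c ≤ K := by
              rw [hK]
              linarith
            gcongr
    · have h4' : X < m ^ 4 := not_le.1 h4
      have hX8 : Real.log X ^ c ≤ (8 * c) ^ c * (X : ℝ) ^ (1 / 8 : ℝ) := by
        have h1 : Real.log X ≤ (X : ℝ) ^ (1 / (8 * c)) / (1 / (8 * c)) :=
          Real.log_le_rpow_div hX0.le (by positivity)
        have h2 : (X : ℝ) ^ (1 / (8 * c)) / (1 / (8 * c)) = (8 * c) * (X : ℝ) ^ (1 / (8 * c)) := by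
          rw [div_div_eq_mul_div, div_one, mul_comm]
        rw [h2] at h1
        calc Real.log X ^ c ≤ ((8 * c) * (X : ℝ) ^ (1 / (8 * c))) ^ c :=
              Real.rpow_le_rpow hlog.le h1 hc.le
          _ = (8 * c) ^ c * (X : ℝ) ^ (1 / 8 : ℝ) := by
              rw [Real.mul_rpow (by positivity) (by positivity), ← Real.rpow_mul hX0.le]
              congr 2
              field_simp
      have h8 : (X : ℝ) ^ (1 / 8 : ℝ) ≤ (m : ℝ) ^ (1 / 2 : ℝ) := by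
        have h9 : (X : ℝ) ≤ (m : ℝ) ^ (4 : ℕ) := by exact_mod_cast h4'.le
        calc (X : ℝ) ^ (1 / 8 : ℝ) ≤ ((m : ℝ) ^ (4 : ℕ)) ^ (1 / 8 : ℝ) :=
              Real.rpow_le_rpow hX0.le h9 (by norm_num)
          _ = (m : ℝ) ^ (1 / 2 : ℝ) := by
              rw [← Real.rpow_natCast (m : ℝ) 4, ← Real.rpow_mul hm0.le]
              norm_num
      have h10 : (m : ℝ) ^ 2 = (m : ℝ) ^ (1 / 2 : ℝ) * (m : ℝ) ^ (3 / 2 : ℝ) := by
        rw [← Real.rpow_add hm0, ← Real.rpow_natCast (m : ℝ) 2]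
        norm_num
      have hm12 : 0 < (m : ℝ) ^ (1 / 2 : ℝ) := Real.rpow_pos_of_pos hm0 _
      have hm32 : 0 < (m : ℝ) ^ (3 / 2 : ℝ) := Real.rpow_pos_of_pos hm0 _
      have h11 : Real.log X ^ c ≤ (8 * c) ^ c * (m : ℝ) ^ (1 / 2 : ℝ) :=
        hX8.trans (by gcongr)
      have h12 : 1 / (m : ℝ) ^ (1 / 2 : ℝ) ≤ (8 * c) ^ c / Real.log X ^ c := by
        rw [div_le_div_iff₀ hm12 hlc, one_mul]
        exact h11
      calc ((XSet f (X / m ^ 2)).ncard : ℝ) ≤ C' * (X / (m : ℝ) ^ 2) := htriv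
        _ = C' * X * (1 / (m : ℝ) ^ (1 / 2 : ℝ)) * (1 / (m : ℝ) ^ (3 / 2 : ℝ)) := by
            rw [h10]
            field_simp
        _ ≤ C' * X * ((8 * c) ^ c / Real.log X ^ c) * (1 / (m : ℝ) ^ (3 / 2 : ℝ)) := by
            gcongr
        _ = (C' * (8 * c) ^ c * X / Real.log X ^ c) * (1 / (m : ℝ) ^ (3 / 2 : ℝ)) := by
            ring
        _ ≤ (K * X / Real.log X ^ c) * (1 / (m : ℝ) ^ (3 / 2 : ℝ)) := by
            have h9 : C' * (8 * c) ^ c ≤ K := by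
              rw [hK]
              linarith
            gcongr
  have h3 : ((TS f X).ncard : ℝ) ≤
      ∑ m ∈ (Finset.Icc 1 X).filter (fun m => m ^ 2 ≤ X), 2 * ((XSet f (X / m ^ 2)).ncard : ℝ) := by
    exact_mod_cast hTcard
  calc ((TS f X).ncard : ℝ) ≤
      ∑ m ∈ (Finset.Icc 1 X).filter (fun m => m ^ 2 ≤ X),
        2 * ((K * X / Real.log X ^ c) * (1 / (m : ℝ) ^ (3 / 2 : ℝ))) :=
        h3.trans (Finset.sum_le_sum fun m hm => by
          have := hterm m hm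
          linarith)
    _ = 2 * (K * X / Real.log X ^ c) * ∑ m ∈ (Finset.Icc 1 X).filter (fun m => m ^ 2 ≤ X),
        (1 / (m : ℝ) ^ (3 / 2 : ℝ)) := by
        rw [Finset.mul_sum]
        exact Finset.sum_congr rfl fun m _ => by ring
    _ ≤ 2 * (K * X / Real.log X ^ c) * Z := by
        rw [hZ]
        gcongr
        exact hsum.sum_le_tsum _ fun m _ => by positivity
    _ = 2 * (K * Z) * X / Real.log X ^ c := by ring
    _ ≤ (2 * (K * Z) + 1) * X / Real.log X ^ c := by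
        gcongr
        linarith

end Pool.Agent.Helper75.TM
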